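import Pool.Agent.Helper55.RL.Spec

/-!
# Part DLP (adapted from helper47's part DSL): the descent for a cocycle and a normal subgroup
-/

set_option autoImplicit false
set_option linter.all false

open scoped Classical
open Pool.Agent.Helper55.UV

namespace Pool.Agent.Helper57.RG.DLP

section desc

variable {p : ℕ} [hpf : Fact p.Prime] {Γ V : Type} [Group Γ] [AddCommGroup V] {ρ : Γ →* AddMonoid.End V}

/-- A finite nonzero group of exponent two with an action of a group, such that the order of each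
element acts as a power of two, has a nonzero invariant homomorphism to the group of order two. -/
theorem exists_inv_homP {M : Type} [AddCommGroup M] [Finite M] [Nontrivial M]
    (h2 : ∀ x : M, p • x = 0) (a : Γ →* AddMonoid.End M)
    (hp : ∀ σ, ∃ m : ℕ, ∀ x, a (σ ^ p ^ m) x = x) :
    ∃ φ : M →+ ZMod p, φ ≠ 0 ∧ ∀ σ x, φ (a σ x) = φ x := by
  haveI : Finite (M →+ ZMod p) := Finite.of_injective (fun φ => (φ : M → ZMod p))
    DFunLike.coe_injective
  -- the action on the homomorphisms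
  let f : Γ →* Function.End (M →+ ZMod p) :=
    { toFun := fun σ φ => φ.comp (a σ⁻¹)
      map_one' := by
        funext φ
        ext x
        show φ (a 1⁻¹ x) = φ x
        rw [inv_one, map_one]
        rfl
      map_mul' := fun σ τ => by
        funext φ
        ext x
        show φ (a (σ * τ)⁻¹ x) = φ (a τ⁻¹ (a σ⁻¹ x))
        rw [mul_inv_rev, map_mul]
        rfl }
  let F : Γ →* Equiv.Perm (M →+ ZMod p) := f.toHomPerm
  have hF : ∀ σ φ, F σ φ = φ.comp (a σ⁻¹) := fun σ φ => rfl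
  have hG : IsPGroup p F.range := by
    rintro ⟨_, σ, rfl⟩
    obtain ⟨m, hm⟩ := hp σ
    refine ⟨m, Subtype.ext ?_⟩
    show (F σ) ^ p ^ m = 1
    rw [← map_pow]
    ext φ x
    show φ (a (σ ^ p ^ m)⁻¹ x) = φ x
    congr 1
    have h1 : a (σ ^ p ^ m)⁻¹ (a (σ ^ p ^ m) x) = x := by
      have h3 : a ((σ ^ p ^ m)⁻¹ * σ ^ p ^ m) x = x := by rw [inv_mul_cancel, map_one]; rfl
      rw [map_mul] at h3
      exact h3
    rw [hm] at h1
    exact h1
  -- the number of homomorphisms
  letI : Module (ZMod p) M := AddCommGroup.zmodModule (n := p) (fun x => h2 x)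
  obtain ⟨x, hx⟩ := exists_ne (0 : M)
  obtain ⟨ψ, hψ⟩ : ∃ ψ : M →+ ZMod p, ψ ≠ 0 := by
    by_contra hcon
    push Not at hcon
    apply hx
    rw [← Module.forall_dual_apply_eq_zero_iff (ZMod p)]
    intro g
    have h1 := hcon g.toAddMonoidHom
    exact DFunLike.congr_fun h1 x
  have hcard : p ∣ Nat.card (M →+ ZMod p) := by
    have h1 : addOrderOf ψ = p := by
      refine addOrderOf_eq_prime ?_ hψ
      ext y
      show p • ψ y = 0
      rw [nsmul_eq_mul, CharP.cast_eq_zero, zero_mul]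
    have h3 := addOrderOf_dvd_natCard ψ
    rwa [h1] at h3
  have h0 : (0 : M →+ ZMod p) ∈ MulAction.fixedPoints F.range (M →+ ZMod p) := by
    rintro ⟨_, σ, rfl⟩
    show (0 : M →+ ZMod p).comp (a σ⁻¹) = 0
    ext y
    rfl
  obtain ⟨φ, hφ, hne⟩ := hG.exists_fixed_point_of_prime_dvd_card_of_fixed_point _ hcard h0
  refine ⟨φ, hne.symm, fun σ y => ?_⟩
  have h1 : φ.comp (a (σ⁻¹)⁻¹) = φ := hφ ⟨_, σ⁻¹, rfl⟩
  rw [inv_inv] at h1
  exact DFunLike.congr_fun h1 y

end desc

section index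

variable {p : ℕ} [hpf : Fact p.Prime] {Γ V : Type} [Group Γ] [AddCommGroup V] {A : Γ →* AddMonoid.End V} {C : Γ → V}
  {N : Subgroup Γ}

theorem desc_auxN (hN : N.Normal) (hC : IsCoG A C) {T0 T1 : AddSubgroup V}
    (h2 : ∀ v ∈ T0, p • v ∈ T1)
    (hs1 : ∀ σ, ∀ v ∈ T1, A σ v ∈ T1)
    (hp : ∀ σ ∈ N, ∃ m : ℕ, ∀ v ∈ T0, A (σ ^ p ^ m) v - v ∈ T1)
    (hdel : ∀ γ : Γ, ∃ δ : Γ, C δ = 0 ∧ δ⁻¹ * γ ∈ N)
    (hchar : ∀ χ : Γ → ZMod p, (∀ σ ∈ N, ∀ τ ∈ N, χ (σ * τ) = χ σ + χ τ) →
      (∀ σ ∈ N, C σ ∈ T1 → χ σ = 0) →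
      (∀ σ ∈ N, ∀ g : Γ, C σ = 0 → χ (g * σ * g⁻¹) = 0) →
      ∀ σ ∈ N, χ σ = 0) :
    ∀ (n : ℕ) (T : AddSubgroup V), T1 ≤ T → T ≤ T0 → (∀ σ, ∀ v ∈ T, A σ v ∈ T) →
      T1.relIndex T = n → n ≠ 0 → (∀ σ, C σ ∈ T) → ∀ σ, C σ ∈ T1 := by
  intro n
  induction n using Nat.strong_induction_on with
  | _ n ih =>
    intro T h1T hT0 hs hn hn0 hCT
    by_cases h1 : n = 1
    · rw [h1, AddSubgroup.relIndex_eq_one] at hn
      exact fun σ => hn (hCT σ)
    -- the quotient
    let M := T ⧸ T1.addSubgroupOf T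
    haveI hfin : Finite M := by
      have : (T1.addSubgroupOf T).index ≠ 0 := by
        show T1.relIndex T ≠ 0
        rw [hn]; exact hn0
      haveI : (T1.addSubgroupOf T).FiniteIndex := ⟨this⟩
      exact AddSubgroup.finite_quotient_of_finiteIndex
    haveI hnt : Nontrivial M := by
      by_contra hcon
      rw [not_nontrivial_iff_subsingleton] at hcon
      apply h1
      rw [← hn]
      show Nat.card M = 1
      exact Nat.card_eq_one_iff_unique.2 ⟨hcon, ⟨0⟩⟩
    -- the action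
    let f : Γ → T →+ T := fun σ =>
      { toFun := fun v => ⟨A σ v, hs σ v v.2⟩
        map_zero' := Subtype.ext (map_zero _)
        map_add' := fun x y => Subtype.ext (map_add _ _ _) }
    have hf : ∀ σ, T1.addSubgroupOf T ≤ (T1.addSubgroupOf T).comap (f σ) := by
      intro σ x hx
      exact hs1 σ _ hx
    let a : Γ →* AddMonoid.End M :=
      { toFun := fun σ => QuotientAddGroup.map _ _ (f σ) (hf σ)
        map_one' := by
          ext x
          obtain ⟨x, rfl⟩ := QuotientAddGroup.mk_surjective x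
          show ((f 1 x : T) : M) = ((x : T) : M)
          have : f 1 x = x := by
            apply Subtype.ext
            show A 1 (x : V) = x
            rw [map_one]
            rfl
          rw [this]
        map_mul' := fun σ τ => by
          ext x
          obtain ⟨x, rfl⟩ := QuotientAddGroup.mk_surjective x
          show ((f (σ * τ) x : T) : M) = ((f σ (f τ x) : T) : M)
          have : f (σ * τ) x = f σ (f τ x) := by
            apply Subtype.ext
            show A (σ * τ) (x : V) = A σ (A τ x)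
            rw [map_mul]
            rfl
          rw [this] }
    have ha : ∀ σ (x : T), a σ (x : M) = ((f σ x : T) : M) := fun σ x => rfl
    have hamul : ∀ σ τ (x : M), a (σ * τ) x = a σ (a τ x) := by
      intro σ τ x
      rw [map_mul]
      rfl
    obtain ⟨φ, hφ, hφa⟩ := exists_inv_homP (p := p) (M := M) (by
      intro x
      obtain ⟨x, rfl⟩ := QuotientAddGroup.mk_surjective x
      have h3 : p • ((x : T) : M) = ((p • x : T) : M) := rfl
      rw [h3, QuotientAddGroup.eq_zero_iff]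
      exact h2 _ (hT0 x.2)) (a.comp N.subtype) (by
      intro σ
      obtain ⟨m, hm⟩ := hp σ.1 σ.2
      refine ⟨m, fun x => ?_⟩
      obtain ⟨x, rfl⟩ := QuotientAddGroup.mk_surjective x
      show ((f ((σ ^ p ^ m : N) : Γ) x : T) : M) = ((x : T) : M)
      rw [Subgroup.coe_pow]
      rw [← sub_eq_zero]
      have h3 : ((f ((σ : Γ) ^ p ^ m) x : T) : M) - ((x : T) : M) =
        ((f ((σ : Γ) ^ p ^ m) x - x : T) : M) := rfl
      rw [h3, QuotientAddGroup.eq_zero_iff]
      exact hm _ (hT0 x.2))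
    -- the invariant homomorphisms
    let Φ : Set (M →+ ZMod p) := {ψ | ∀ σ ∈ N, ∀ x, ψ (a σ x) = ψ x}
    have hφΦ : φ ∈ Φ := fun σ hσ x => hφa ⟨σ, hσ⟩ x
    -- the homomorphism of `N`
    have hχ : ∀ ψ ∈ Φ, ∀ σ ∈ N, ψ ((⟨C σ, hCT σ⟩ : T) : M) = 0 := by
      intro ψ hψ
      refine hchar (fun σ => ψ ((⟨C σ, hCT σ⟩ : T) : M)) ?_ ?_ ?_
      · intro σ hσ τ hτ
        have e : ((⟨C (σ * τ), hCT (σ * τ)⟩ : T) : M) =
            ((⟨C σ, hCT σ⟩ : T) : M) + a σ ((⟨C τ, hCT τ⟩ : T) : M) := by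
          rw [ha]
          have : (⟨C (σ * τ), hCT (σ * τ)⟩ : T) = ⟨C σ, hCT σ⟩ + f σ ⟨C τ, hCT τ⟩ :=
            Subtype.ext (hC σ τ)
          rw [this]
          rfl
        show ψ _ = ψ _ + ψ _
        rw [e, map_add, hψ σ hσ]
      · intro σ hσ hσ1
        have : ((⟨C σ, hCT σ⟩ : T) : M) = 0 := by
          rw [QuotientAddGroup.eq_zero_iff]
          exact hσ1
        show ψ _ = 0
        rw [this, map_zero]
      · intro σ hσ g hg0
        have hgN : g * σ * g⁻¹ ∈ N := hN.conj_mem σ hσ g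
        have hC1 : C 1 = 0 := hC.one
        have hval : C (g * σ * g⁻¹) + A (g * σ * g⁻¹) (C g) = C g := by
          have h5 := hC (g * σ * g⁻¹) g
          have h6 := hC g σ
          rw [hg0, map_zero, add_zero] at h6
          rw [← h5, inv_mul_cancel_right, h6]
        have e : ((⟨C (g * σ * g⁻¹), hCT (g * σ * g⁻¹)⟩ : T) : M) +
            a (g * σ * g⁻¹) ((⟨C g, hCT g⟩ : T) : M) = ((⟨C g, hCT g⟩ : T) : M) := by
          rw [ha]
          have : (⟨C (g * σ * g⁻¹), hCT (g * σ * g⁻¹)⟩ : T) + f (g * σ * g⁻¹) ⟨C g, hCT g⟩ =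
            ⟨C g, hCT g⟩ := Subtype.ext hval
          rw [← this]
          rw [this]
          have h7 : (((⟨C (g * σ * g⁻¹), hCT (g * σ * g⁻¹)⟩ : T) + f (g * σ * g⁻¹) ⟨C g, hCT g⟩ : T) : M)
            = ((⟨C g, hCT g⟩ : T) : M) := by rw [this]
          exact h7
        have h8 := congrArg ψ e
        rw [map_add, hψ _ hgN] at h8
        show ψ _ = 0
        exact add_eq_right.1 h8
    -- the smaller group
    let T' : AddSubgroup V :=
      { carrier := {v | ∃ h : v ∈ T, ∀ ψ ∈ Φ, ψ ((⟨v, h⟩ : T) : M) = 0}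
        zero_mem' := ⟨T.zero_mem, fun ψ _ => by
          have : ((⟨0, T.zero_mem⟩ : T) : M) = 0 := rfl
          rw [this, map_zero]⟩
        add_mem' := by
          rintro v w ⟨hv, hv'⟩ ⟨hw, hw'⟩
          refine ⟨T.add_mem hv hw, fun ψ hψ => ?_⟩
          have : ((⟨v + w, T.add_mem hv hw⟩ : T) : M) = ((⟨v, hv⟩ : T) : M) + ((⟨w, hw⟩ : T) : M) :=
            rfl
          rw [this, map_add, hv' ψ hψ, hw' ψ hψ, add_zero]
        neg_mem' := by
          rintro v ⟨hv, hv'⟩
          refine ⟨T.neg_mem hv, fun ψ hψ => ?_⟩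
          have : ((⟨-v, T.neg_mem hv⟩ : T) : M) = -((⟨v, hv⟩ : T) : M) := rfl
          rw [this, map_neg, hv' ψ hψ, neg_zero] }
    have hT' : ∀ v, v ∈ T' ↔ ∃ h : v ∈ T, ∀ ψ ∈ Φ, ψ ((⟨v, h⟩ : T) : M) = 0 := fun v => Iff.rfl
    have h1T' : T1 ≤ T' := by
      intro v hv
      rw [hT']
      refine ⟨h1T hv, fun ψ _ => ?_⟩
      have : ((⟨v, h1T hv⟩ : T) : M) = 0 := by
        rw [QuotientAddGroup.eq_zero_iff]
        exact hv
      rw [this, map_zero]
    have hT'T : T' ≤ T := by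
      intro v hv
      exact ((hT' v).1 hv).1
    have hmul : T1.relIndex T' * T'.relIndex T = T1.relIndex T :=
      AddSubgroup.relIndex_mul_relIndex _ _ _ h1T' hT'T
    have hne : T'.relIndex T ≠ 1 := by
      rw [Ne, AddSubgroup.relIndex_eq_one]
      intro hle
      apply hφ
      ext x
      exact ((hT' _).1 (hle x.2)).2 φ hφΦ
    rw [hn] at hmul
    have hpos : T1.relIndex T' ≠ 0 := by
      intro h0
      rw [h0, zero_mul] at hmul
      exact hn0 hmul.symm
    have hpos' : T'.relIndex T ≠ 0 := by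
      intro h0
      rw [h0, mul_zero] at hmul
      exact hn0 hmul.symm
    have hsT' : ∀ σ, ∀ v ∈ T', A σ v ∈ T' := by
      intro g v hv
      rw [hT'] at hv ⊢
      obtain ⟨h, h3⟩ := hv
      refine ⟨hs g v h, fun ψ hψ => ?_⟩
      have h5 : ψ.comp (a g) ∈ Φ := by
        intro σ hσ x
        show ψ (a g (a σ x)) = ψ (a g x)
        rw [← hamul]
        have e : g * σ = (g * σ * g⁻¹) * g := by group
        rw [e, hamul, hψ _ (hN.conj_mem σ hσ g)]
      exact h3 _ h5
    refine ih (T1.relIndex T') ?_ T' h1T' (hT'T.trans hT0) hsT' rfl hpos ?_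
    · rw [← hmul]
      have h5 : 2 ≤ T'.relIndex T := by omega
      nlinarith [Nat.pos_of_ne_zero hpos]
    · intro γ
      obtain ⟨δ, hδ, hδN⟩ := hdel γ
      have e1 : C γ = A δ (C (δ⁻¹ * γ)) := by
        have h5 := hC δ (δ⁻¹ * γ)
        rw [mul_inv_cancel_left, hδ, zero_add] at h5
        exact h5
      rw [e1]
      apply hsT'
      rw [hT']
      exact ⟨hCT _, fun ψ hψ => hχ ψ hψ _ hδN⟩

end index

theorem main : Pool.Agent.Helper55.RL.P_DLP := by
  intro p _ Γ _ d ρ N hN hp2 C hC m₀ h0 hdel hchar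
  have key : ∀ n : ℕ, ∀ σ, C σ ∈ Pool.Agent.Helper55.RL.LtP p d (m₀ + n) := by
    intro n
    induction n with
    | zero => simpa using h0
    | succ n ih =>
      have h1 := desc_auxN (p := p) (T0 := Pool.Agent.Helper55.RL.LtP p d (m₀ + n))
        (T1 := Pool.Agent.Helper55.RL.LtP p d (m₀ + n + 1)) hN hC
        (fun v hv => Pool.Agent.Helper55.RL.pmul_mem hv)
        (fun σ v hv => Pool.Agent.Helper55.RL.ac_mem ρ σ hv)
        (fun σ hσ => by
          obtain ⟨m, hm⟩ := hp2 σ hσ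
          exact ⟨m, fun v hv => Pool.Agent.Helper55.RL.ac_sub_mem ρ hm hv⟩)
        hdel
        (hchar (m₀ + n) (by omega)) _ (Pool.Agent.Helper55.RL.LtP p d (m₀ + n))
        (Pool.Agent.Helper55.RL.LtP_anti (by omega)) le_rfl
        (fun σ v hv => Pool.Agent.Helper55.RL.ac_mem ρ σ hv) rfl
        (Pool.Agent.Helper55.RL.relIndex_ne _) ih
      intro σ
      have h3 := h1 σ
      rwa [add_assoc] at h3
  intro σ
  refine Pool.Agent.Helper55.RL.eq_zero_of_mem (m₀ := m₀) fun m hm => ?_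
  obtain ⟨n, hn⟩ := Int.eq_ofNat_of_zero_le (sub_nonneg.2 hm)
  have h1 := key n σ
  have e : m₀ + (n : ℤ) = m := by omega
  rwa [e] at h1

end Pool.Agent.Helper57.RG.DLP
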