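import Pool.Agent.Helper79.RG.THN

set_option autoImplicit false

/-! Part TNP of the RG swarm (helper55), adapted from part THN (helper79): generic parameters such
that the generic polynomial of degree `m` has `m` generic roots, for `p`-th powers. The statement
is the body of `P_TNP`. -/

open Polynomial

namespace Pool.Agent.Helper57.RGN

open Pool.Agent.Helper79.RGN

section pw

variable {k A : Type} [Field k] [CommRing A] [IsDomain A]

/-- `S(t_l) S(t_l') ^ (p - 1)` is not a `p`-th power if `S` is monic, nonconstant, without factors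
`q ^ p` -/
lemma not_pw [CharZero k] {p : ℕ} (hp : p.Prime) (ι0 : k →+* A) (ev : A →+* k)
    (hev : ev.comp ι0 = RingHom.id k) (m : ℕ)
    (S : k[X]) (hm : S.Monic) (hS : ∀ q : k[X], Irreducible q → ¬ q ^ p ∣ S) (h1 : S ≠ 1)
    (l l' : Fin m) (hne : l ≠ l') (z : MvPolynomial (Fin m) A)
    (hz : z ^ p = eval₂ ((MvPolynomial.C : A →+* MvPolynomial (Fin m) A).comp ι0)
      (MvPolynomial.X l) S * eval₂ ((MvPolynomial.C : A →+* MvPolynomial (Fin m) A).comp ι0)
      (MvPolynomial.X l') S ^ (p - 1)) : False := by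
  classical
  obtain ⟨c, hc⟩ : ∃ c : k, S.eval c ≠ 0 := by
    by_contra hcon
    push Not at hcon
    exact hm.ne_zero (Polynomial.funext fun r => by rw [hcon r, eval_zero])
  let ρ : MvPolynomial (Fin m) A →+* k[X] :=
    MvPolynomial.eval₂Hom ((C : k →+* k[X]).comp ev) (fun i => if i = l then X else C c)
  have hρ : ∀ i : Fin m, ρ (eval₂ ((MvPolynomial.C : A →+* MvPolynomial (Fin m) A).comp ι0)
      (MvPolynomial.X i) S) = eval₂ (C : k →+* k[X]) (if i = l then X else C c) S := by
    intro i
    rw [hom_eval₂]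
    congr 1
    · ext x
      have h2 : ev (ι0 x) = x := by
        rw [← RingHom.comp_apply, hev]; rfl
      simp [ρ, h2]
    · simp [ρ]
  have h2 := congrArg ρ hz
  rw [map_mul, map_pow, map_pow, hρ, hρ, if_pos rfl, if_neg (Ne.symm hne), eval₂_C_X] at h2
  have h3 : eval₂ (C : k →+* k[X]) (C c) S = C (S.eval c) := by
    rw [eval₂_at_apply]
  rw [h3, ← C_pow] at h2
  have hu : IsUnit (C (S.eval c ^ (p - 1))) := by
    rw [Polynomial.isUnit_C]
    exact (isUnit_iff_ne_zero.2 (pow_ne_zero _ hc))
  have hnu : ¬ IsUnit S := fun h => h1 (hm.eq_one_of_isUnit h)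
  obtain ⟨q, hq, hqS⟩ := WfDvdMonoid.exists_irreducible_factor hnu hm.ne_zero
  apply hS q hq
  have h4 : q ∣ ρ z ^ p := by
    rw [h2]
    exact hqS.mul_right _
  have h5 : q ^ p ∣ ρ z ^ p := pow_dvd_pow_of_dvd (hq.prime.dvd_of_dvd_pow h4) p
  rw [h2] at h5
  exact hu.dvd_mul_right.1 h5

end pw

theorem tnp : ∀ (p : ℕ) [Fact p.Prime] (k O ι J : Type) [Field k] [CharZero k] [CommRing O] [IsDomain O] [Algebra O k]
  [FaithfulSMul O k] [Fintype J] (ω : J → O) (j0 : J), ω j0 ≠ 0 → ∀ (m : ℕ) (e : Fin (m + 1) → ι),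
  1 ≤ m → Function.Injective e →
  ∃ (M : Type) (_ : Field M) (φ : k →+* M) (Θ : MvPolynomial (ι × J) O →+* M) (t : Fin m → M),
    Function.Injective Θ ∧ (∀ o : O, Θ (MvPolynomial.C o) = φ (algebraMap O k o)) ∧
    Function.Injective t ∧
    (∀ l : Fin m, ∑ i : Fin (m + 1), (∑ j, Θ (MvPolynomial.X (e i, j)) * Θ (MvPolynomial.C (ω j))) *
      (t l) ^ (i : ℕ) = 0) ∧
    (∀ q : Equiv.Perm (Fin m), ∃ σ : M ≃+* M, (∀ x, σ (Θ x) = Θ x) ∧ ∀ l, σ (t l) = t (q l)) ∧
    (∀ ε : M, ε ^ p = 1 → ∃ e : k, φ e = ε) ∧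
    ∀ S : k[X], S.Monic → (∀ q : k[X], Irreducible q → ¬ q ^ p ∣ S) → S ≠ 1 →
      ∀ l l' : Fin m, l ≠ l' →
      ¬ ∃ r : M, r ^ p = eval₂ φ (t l) S * eval₂ φ (t l') S ^ (p - 1) := by
  classical
  intro P hP k O ι J _ _ _ _ _ _ _ ω j0 hω m e hm he
  let Q := ι × J
  let A := MvPolynomial Q k
  let R := MvPolynomial (Fin m) A
  let w : J → k := fun j => algebraMap O k (ω j)
  have hw0 : w j0 ≠ 0 := by
    intro h
    exact hω ((FaithfulSMul.algebraMap_injective O k) (by rw [map_zero]; exact h))
  let g : Fin m → Q := fun i => (e i.castSucc, j0)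
  have hg : Function.Injective g := by
    intro i i' h
    exact Fin.castSucc_injective _ (he (congrArg Prod.fst h))
  let cm : A := ∑ j, MvPolynomial.X (e (Fin.last m), j) * MvPolynomial.C (w j)
  have hcm : cm ≠ 0 := by
    intro h
    have h1 := congrArg (MvPolynomial.coeff (Finsupp.single (e (Fin.last m), j0) 1)) h
    rw [MvPolynomial.coeff_sum, MvPolynomial.coeff_zero, Finset.sum_eq_single j0] at h1
    · rw [mul_comm, MvPolynomial.coeff_C_mul, MvPolynomial.coeff_X, if_pos rfl, mul_one] at h1
      exact hw0 h1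
    · intro j _ hj
      rw [mul_comm, MvPolynomial.coeff_C_mul, MvPolynomial.coeff_X, if_neg, mul_zero]
      intro h2
      have := Finsupp.single_left_injective (one_ne_zero) h2
      exact hj (congrArg Prod.snd this)
    · intro h; exact absurd (Finset.mem_univ _) h
  let W : Fin m → A := fun i => ∑ j, if j = j0 then 0 else
    MvPolynomial.X (e i.castSucc, j) * MvPolynomial.C (w j)
  let es : Fin m → R := fun i => MvPolynomial.esymm (Fin m) A (i + 1)
  let Θ2 : A →+* R := spec g (w j0)⁻¹ cm W R es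
  have hΘ2 : Function.Injective Θ2 :=
    spec_inj_esymm g (w j0)⁻¹ cm W hg (inv_ne_zero hw0) hcm
  let Θ1 : MvPolynomial Q O →+* A := MvPolynomial.map (algebraMap O k)
  have hΘ1 : Function.Injective Θ1 :=
    MvPolynomial.map_injective _ (FaithfulSMul.algebraMap_injective O k)
  let M := FractionRing R
  let al : R →+* M := algebraMap R M
  have hal : Function.Injective al := IsFractionRing.injective R M
  let ι0 : k →+* A := MvPolynomial.C
  let φ : k →+* M := al.comp ((MvPolynomial.C : A →+* R).comp ι0)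
  have hΘC : ∀ c : k, Θ2 (MvPolynomial.C c) = MvPolynomial.C (MvPolynomial.C c) := by
    intro c
    exact spec_C g (w j0)⁻¹ cm W es c
  have hΘX : ∀ q, Θ2 (MvPolynomial.X q) = par g (w j0)⁻¹ cm W R es q := by
    intro q
    exact spec_X g (w j0)⁻¹ cm W es q
  have hsym : ∀ (p : Equiv.Perm (Fin m)) (x : A),
      MvPolynomial.rename p (Θ2 x) = Θ2 x := by
    intro p x
    show (MvPolynomial.rename p : R →ₐ[A] R) (spec g (w j0)⁻¹ cm W R es x) = _
    rw [spec_map g (w j0)⁻¹ cm W es (MvPolynomial.rename p : R →ₐ[A] R) hg]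
    congr 2
    funext i
    exact MvPolynomial.rename_esymm _ _ _ _
  have hΘq : ∀ q, (al.comp (Θ2.comp Θ1)) (MvPolynomial.X q) =
      al (par g (w j0)⁻¹ cm W R es q) := by
    intro q
    rw [RingHom.comp_apply, RingHom.comp_apply]
    have h1 : Θ1 (MvPolynomial.X q) = MvPolynomial.X q := MvPolynomial.map_X _ _
    rw [h1, hΘX]
  have hΘo : ∀ o, (al.comp (Θ2.comp Θ1)) (MvPolynomial.C o) =
      al (MvPolynomial.C (MvPolynomial.C (algebraMap O k o))) := by
    intro o
    rw [RingHom.comp_apply, RingHom.comp_apply]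
    have h1 : Θ1 (MvPolynomial.C o) = MvPolynomial.C (algebraMap O k o) := MvPolynomial.map_C _ _
    rw [h1, hΘC]
  refine ⟨M, inferInstance, φ, al.comp (Θ2.comp Θ1), fun l => al (MvPolynomial.X l), ?_, hΘo, ?_,
    ?_, ?_, ?_, ?_⟩
  · exact hal.comp (hΘ2.comp hΘ1)
  · exact hal.comp MvPolynomial.X_injective
  · intro l
    have key : ∑ i : Fin (m + 1), (∑ j, par g (w j0)⁻¹ cm W R es (e i, j) *
        (MvPolynomial.C (MvPolynomial.C (w j)))) * (MvPolynomial.X l : R) ^ (i : ℕ) = 0 := by
      rw [Fin.sum_univ_castSucc]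
      have hlast : ∑ j, par g (w j0)⁻¹ cm W R es (e (Fin.last m), j) *
          (MvPolynomial.C (MvPolynomial.C (w j))) = (MvPolynomial.C cm : R) := by
        simp only [cm, map_sum]
        refine Finset.sum_congr rfl fun j _ => ?_
        have : ¬ ∃ i, g i = (e (Fin.last m), j) := by
          rintro ⟨i, hi⟩
          have h1 := he (congrArg Prod.fst hi)
          exact absurd h1 (Fin.castSucc_lt_last i).ne
        unfold par
        rw [Function.extend_apply' _ _ _ this, map_mul]
        rfl
      have hi : ∀ i : Fin m, ∑ j, par g (w j0)⁻¹ cm W R es (e i.castSucc, j) *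
          (MvPolynomial.C (MvPolynomial.C (w j))) =
          (MvPolynomial.C cm : R) * ((-1) ^ ((Fin.rev i : ℕ) + 1) * es (Fin.rev i)) := by
        intro i
        have h1 : ∀ j, par g (w j0)⁻¹ cm W R es (e i.castSucc, j) *
            (MvPolynomial.C (MvPolynomial.C (w j))) =
            (if j = j0 then ((MvPolynomial.C cm : R) * ((-1) ^ ((Fin.rev i : ℕ) + 1) *
              es (Fin.rev i)) - MvPolynomial.C (W i)) else 0) +
            MvPolynomial.C (if j = j0 then 0 else
              MvPolynomial.X (e i.castSucc, j) * MvPolynomial.C (w j)) := by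
          intro j
          by_cases hj : j = j0
          · subst hj
            rw [if_pos rfl, if_pos rfl, map_zero, add_zero]
            have h2 : par g (w j)⁻¹ cm W R es (e i.castSucc, j) =
                par g (w j)⁻¹ cm W R es (g i) := rfl
            rw [h2]
            unfold par
            rw [hg.extend_apply]
            have h3 : (MvPolynomial.C (MvPolynomial.C (w j)⁻¹) : R) *
                MvPolynomial.C (MvPolynomial.C (w j)) = 1 := by
              rw [← MvPolynomial.C_mul, ← MvPolynomial.C_mul, inv_mul_cancel₀ hw0,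
                MvPolynomial.C_1, MvPolynomial.C_1]
            show (MvPolynomial.C (MvPolynomial.C (w j)⁻¹) : R) *
              ((MvPolynomial.C cm : R) * (-1) ^ ((Fin.rev i : ℕ) + 1) * es (Fin.rev i) -
                MvPolynomial.C (W i)) * MvPolynomial.C (MvPolynomial.C (w j)) = _
            linear_combination ((MvPolynomial.C cm : R) * (-1) ^ ((Fin.rev i : ℕ) + 1) *
              es (Fin.rev i) - MvPolynomial.C (W i)) * h3
          · rw [if_neg hj, if_neg hj, zero_add]
            have : ¬ ∃ i', g i' = (e i.castSucc, j) := by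
              rintro ⟨i', hi'⟩
              exact hj (congrArg Prod.snd hi').symm
            unfold par
            rw [Function.extend_apply' _ _ _ this, map_mul]
            rfl
        simp_rw [h1, Finset.sum_add_distrib]
        rw [Finset.sum_ite_eq' Finset.univ j0, if_pos (Finset.mem_univ _), ← map_sum]
        show _ - MvPolynomial.C (W i) + MvPolynomial.C (W i) = _
        ring
      rw [hlast]
      simp_rw [hi]
      have hv := vieta A m l
      simp only [Fin.val_castSucc, Fin.val_last]
      have h7 : ∑ i : Fin m, (MvPolynomial.C cm : R) * ((-1) ^ ((Fin.rev i : ℕ) + 1) *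
          es (Fin.rev i)) * (MvPolynomial.X l : R) ^ (i : ℕ) =
          (MvPolynomial.C cm : R) * ∑ i : Fin m, (-1) ^ ((Fin.rev i : ℕ) + 1) *
            MvPolynomial.esymm (Fin m) A ((Fin.rev i : ℕ) + 1) *
            (MvPolynomial.X l : R) ^ (i : ℕ) := by
        rw [Finset.mul_sum]
        refine Finset.sum_congr rfl fun i _ => ?_
        rw [mul_assoc]
      rw [h7, ← mul_add, hv, mul_zero]
    have h4 := congrArg al key
    rw [map_zero, map_sum] at h4
    rw [← h4]
    refine Finset.sum_congr rfl fun i _ => ?_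
    rw [map_mul al, map_pow al, map_sum al]
    refine congrArg (fun u => u * (al (MvPolynomial.X l)) ^ (i : ℕ)) ?_
    refine Finset.sum_congr rfl fun j _ => ?_
    rw [map_mul al, hΘq, hΘo]
  · intro p
    let r : R ≃ₐ[A] R := MvPolynomial.renameEquiv A p
    let σ : M ≃+* M := IsFractionRing.ringEquivOfRingEquiv (K := M) (L := M) r.toRingEquiv
    have hσ : ∀ x : R, σ (al x) = al (MvPolynomial.rename p x) := by
      intro x
      exact IsFractionRing.ringEquivOfRingEquiv_algebraMap _ _
    refine ⟨σ, ?_, ?_⟩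
    · intro x
      show σ (al (Θ2 (Θ1 x))) = al (Θ2 (Θ1 x))
      rw [hσ, hsym]
    · intro l
      show σ (al (MvPolynomial.X l)) = al (MvPolynomial.X (p l))
      rw [hσ, MvPolynomial.rename_X]
  · intro ε hε
    have hzi : ∃ y : R, algebraMap R M y = ε := by
      apply IsIntegrallyClosed.exists_algebraMap_eq_of_isIntegral_pow (n := P) hP.out.pos
      rw [hε]
      exact isIntegral_one
    obtain ⟨y, rfl⟩ := hzi
    have hy : y ^ P = 1 := by
      apply hal
      show algebraMap R M (y ^ P) = algebraMap R M 1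
      rw [map_pow, hε, map_one]
    have hyu : IsUnit y := IsUnit.of_pow_eq_one hy hP.out.ne_zero
    obtain ⟨a, ha, hya⟩ := MvPolynomial.isUnit_iff_eq_C_of_isReduced.1 hyu
    obtain ⟨b, hb, hab⟩ := MvPolynomial.isUnit_iff_eq_C_of_isReduced.1 ha
    refine ⟨b, ?_⟩
    rw [hya, hab]
    rfl
  · intro S hm' hS h1 l l' hne hsq
    obtain ⟨z, hz⟩ := hsq
    have hφ : ∀ l : Fin m, eval₂ φ (al (MvPolynomial.X l)) S =
        al (eval₂ ((MvPolynomial.C : A →+* R).comp ι0) (MvPolynomial.X l) S) := by
      intro l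
      rw [hom_eval₂]
    rw [hφ, hφ, ← map_pow, ← map_mul] at hz
    have hzi : ∃ y : R, algebraMap R M y = z := by
      apply IsIntegrallyClosed.exists_algebraMap_eq_of_isIntegral_pow (n := P) hP.out.pos
      rw [hz]
      exact isIntegral_algebraMap
    obtain ⟨y, rfl⟩ := hzi
    have hz2 : y ^ P = eval₂ ((MvPolynomial.C : A →+* R).comp ι0) (MvPolynomial.X l) S *
        eval₂ ((MvPolynomial.C : A →+* R).comp ι0) (MvPolynomial.X l') S ^ (P - 1) := by
      apply hal
      rw [← hz]
      exact map_pow _ _ _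
    refine not_pw hP.out ι0 (MvPolynomial.eval₂Hom (RingHom.id k) (fun _ => 0)) ?_ m S hm' hS h1 l
      l' hne y hz2
    ext x
    simp [ι0]
    exact MvPolynomial.constantCoeff_C _ x

end Pool.Agent.Helper57.RGN
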