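import Pool.Agent.Helper57.RG.TNP
import Pool.Agent.Helper55.RL.Spec

/-! Part TNP of the RG swarm: the statement `P_TNP`. -/

namespace Pool.Agent.Helper57.RG.TNP

theorem main : Pool.Agent.Helper55.RL.P_TNP := Pool.Agent.Helper57.RGN.tnp

end Pool.Agent.Helper57.RG.TNP
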